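import Pool.Agent.Y910.F.Defs
import Pool.Agent.Y910.R.R4

/-!
Project FC (helper910), job GAP (helper550): the gap principle for points in one class.
-/

open Polynomial Filter

set_option autoImplicit false

namespace Pool.Agent.Y550.FC.GAP

open Pool.Agent.Y910.G Pool.Agent.Y910.R

/-! ### Square roots at a place -/

section val

variable {Ω : Type*} [Field Ω] (V : ValuationSubring Ω)

lemma inv_small {x : Ω} (hx : x ∉ V) : V.valuation x⁻¹ < 1 := by
  rw [map_inv₀]
  have h1 : 1 < V.valuation x := by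
    rw [← not_le]
    exact fun h => hx ((V.valuation_le_one_iff _).1 h)
  exact inv_lt_one_of_one_lt₀ h1

/-- the sign -/
def sgn (e : Bool) : ℤ := if e then 1 else -1

lemma sgn_sq (e : Bool) : (sgn e : Ω) ^ 2 = 1 := by
  cases e <;> simp [sgn]

lemma sgn_mem (e : Bool) : (sgn e : Ω) ∈ V := by
  cases e <;> simp [sgn, V.one_mem]

lemma sign {x x' s s' θ β : Ω} (hx : x ∉ V) (hx' : x' ∉ V) (hs : s ^ 2 = x) (hs' : s' ^ 2 = x')
    (hθ : θ ∈ V) (hβ : β ^ 2 = (x - θ) * (x' - θ)) :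
    ∃ e : Bool, V.valuation (β / (s * s') - (sgn e : Ω)) < 1 := by
  have hx0 : x ≠ 0 := fun h => hx (h ▸ V.zero_mem)
  have hx0' : x' ≠ 0 := fun h => hx' (h ▸ V.zero_mem)
  have hs0 : s ≠ 0 := by
    rintro rfl
    rw [zero_pow two_ne_zero] at hs
    exact hx0 hs.symm
  have hs0' : s' ≠ 0 := by
    rintro rfl
    rw [zero_pow two_ne_zero] at hs'
    exact hx0' hs'.symm
  have e1 : (β / (s * s') - 1) * (β / (s * s') + 1) =
      -(x⁻¹ * θ) - x'⁻¹ * θ + (x⁻¹ * θ) * (x'⁻¹ * θ) := by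
    have h1 : (β / (s * s') - 1) * (β / (s * s') + 1) = β ^ 2 / (s ^ 2 * s' ^ 2) - 1 := by
      field_simp
      ring
    rw [h1, hβ, hs, hs']
    field_simp
    ring
  have m1 : V.valuation (x⁻¹ * θ) < 1 := m_mul V (inv_small V hx) hθ
  have m2 : V.valuation (x'⁻¹ * θ) < 1 := m_mul V (inv_small V hx') hθ
  have h2 : V.valuation ((β / (s * s') - 1) * (β / (s * s') + 1)) < 1 := by
    rw [e1]
    exact m_add V (m_sub V (m_neg V m1) m2) (m_mul V m1 (m_mem V m2))
  have h3 : V.valuation (β / (s * s') - 1) < 1 ∨ V.valuation (β / (s * s') + 1) < 1 := by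
    by_contra hc
    push Not at hc
    rw [map_mul] at h2
    have : (1 : V.ValueGroup) ≤ V.valuation (β / (s * s') - 1) *
        V.valuation (β / (s * s') + 1) :=
      one_le_mul_of_one_le_of_one_le hc.1 hc.2
    exact absurd h2 (not_lt.2 this)
  rcases h3 with h | h
  · exact ⟨true, by simpa [sgn] using h⟩
  · exact ⟨false, by simpa [sgn] using h⟩

lemma comb {x0 xa xb s0 sa sb θ βa βb : Ω} (h0 : x0 ∉ V) (ha : xa ∉ V) (hb : xb ∉ V)
    (hs0 : s0 ^ 2 = x0) (hsa : sa ^ 2 = xa) (hsb : sb ^ 2 = xb) (hθ : θ ∈ V)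
    (hβa : βa ^ 2 = (x0 - θ) * (xa - θ)) (hβb : βb ^ 2 = (x0 - θ) * (xb - θ)) (e : Bool)
    (hea : V.valuation (βa / (s0 * sa) - (sgn e : Ω)) < 1)
    (heb : V.valuation (βb / (s0 * sb) - (sgn e : Ω)) < 1) :
    (βa * βb / (x0 - θ)) ^ 2 = (xa - θ) * (xb - θ) ∧
      V.valuation (βa * βb / (x0 - θ) / (sa * sb) - 1) < 1 := by
  have hne : x0 - θ ∉ V := by
    intro h
    apply h0
    have := V.add_mem _ _ h hθ
    rwa [sub_add_cancel] at this
  have hne0 : x0 - θ ≠ 0 := fun h => hne (h ▸ V.zero_mem)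
  have nz : ∀ {x s : Ω}, x ∉ V → s ^ 2 = x → s ≠ 0 := by
    intro x s hx hs h
    rw [h, zero_pow two_ne_zero] at hs
    exact hx (hs ▸ V.zero_mem)
  have n0 := nz h0 hs0
  have na := nz ha hsa
  have nb := nz hb hsb
  constructor
  · rw [div_pow, mul_pow, hβa, hβb]
    field_simp
  · obtain ⟨u, hu⟩ : ∃ u, u = βa / (s0 * sa) := ⟨_, rfl⟩
    obtain ⟨w, hw⟩ : ∃ w, w = βb / (s0 * sb) := ⟨_, rfl⟩
    obtain ⟨t, ht⟩ : ∃ t, t = (x0 - θ)⁻¹ * θ := ⟨_, rfl⟩
    rw [← hu] at hea
    rw [← hw] at heb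
    have hts : V.valuation t < 1 := by
      rw [ht]
      exact m_mul V (inv_small V hne) hθ
    have e1 : βa * βb / (x0 - θ) / (sa * sb) = u * w * (1 + t) := by
      have h1 : 1 + t = s0 ^ 2 / (x0 - θ) := by
        rw [ht, hs0]
        field_simp
        ring
      rw [h1, hu, hw]
      field_simp
    have hwV : w ∈ V := by
      have h1 : w = (w - (sgn e : Ω)) + (sgn e : Ω) := by ring
      rw [h1]
      exact V.add_mem _ _ (m_mem V heb) (sgn_mem V e)
    have e2 : u * w * (1 + t) - 1 = ((u - (sgn e : Ω)) * w + (w - (sgn e : Ω)) * (sgn e : Ω)) *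
        (1 + t) + t := by
      linear_combination (1 + t) * sgn_sq (Ω := Ω) e
    rw [e1, e2]
    refine m_add V (m_mul V (m_add V (m_mul V hea hwV) (m_mul V heb (sgn_mem V e))) ?_) hts
    exact V.add_mem _ _ V.one_mem (m_mem V hts)

end val

/-! ### Traces -/

lemma trI (g : ℤ[X]) (hg : (g.map (Int.castRingHom ℚ)).Separable) (B : ℚ[X])
    (hB : ∀ r : ℂ, aeval r g = 0 →
      IsIntegral ℤ ((g.leadingCoeff : ℂ) * (B.map (algebraMap ℚ ℂ)).eval r)) (j : ℕ) :
    ∃ z : ℤ, (g.leadingCoeff : ℂ) ^ (j + 1) *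
      ∑ r ∈ ((g.map (Int.castRingHom ℚ)).map (algebraMap ℚ ℂ)).roots.toFinset,
        r ^ j * (B.map (algebraMap ℚ ℂ)).eval r = (z : ℂ) := by
  obtain ⟨q, hq⟩ := trace_rat _ hg (C ((g.leadingCoeff : ℚ) ^ (j + 1)) * (X ^ j * B))
  have h1 : (g.leadingCoeff : ℂ) ^ (j + 1) *
      ∑ r ∈ ((g.map (Int.castRingHom ℚ)).map (algebraMap ℚ ℂ)).roots.toFinset,
        r ^ j * (B.map (algebraMap ℚ ℂ)).eval r = (q : ℂ) := by
    rw [← hq, Finset.mul_sum]
    refine Finset.sum_congr rfl fun r _ => ?_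
    simp
  rw [h1]
  have h2 : IsIntegral ℤ (q : ℂ) := by
    rw [← h1, Finset.mul_sum]
    apply IsIntegral.sum
    intro r hr
    have hr0 : aeval r g = 0 := by
      rw [Multiset.mem_toFinset] at hr
      have h3 := (mem_roots'.1 hr).2
      rw [IsRoot.def, Polynomial.map_map, eval_map] at h3
      rw [aeval_def, ← h3]
      congr 1
    have h5 : IsIntegral ℤ ((g.leadingCoeff : ℂ) * r) := by
      have := isIntegral_leadingCoeff_smul g r hr0
      rwa [zsmul_eq_mul] at this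
    have h8 : (g.leadingCoeff : ℂ) ^ (j + 1) * (r ^ j * (B.map (algebraMap ℚ ℂ)).eval r) =
        ((g.leadingCoeff : ℂ) * r) ^ j * ((g.leadingCoeff : ℂ) *
          (B.map (algebraMap ℚ ℂ)).eval r) := by ring
    rw [h8]
    exact (h5.pow j).mul (hB r hr0)
  have h3 : IsIntegral ℤ q := by
    have h4 : IsIntegral ℤ (algebraMap ℚ ℂ q) := by simpa using h2
    exact (isIntegral_algebraMap_iff (algebraMap ℚ ℂ).injective).1 h4
  obtain ⟨z, hz⟩ := IsIntegrallyClosed.isIntegral_iff.1 h3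
  refine ⟨z, ?_⟩
  rw [← hz]
  simp

/-- evaluation of a divisibility at a root -/
lemma eval_of_dvd {g : ℤ[X]} {r : ℂ} (hr : aeval r g = 0) {P : ℚ[X]}
    (h : g.map (Int.castRingHom ℚ) ∣ P) : (P.map (algebraMap ℚ ℂ)).eval r = 0 := by
  obtain ⟨Q, rfl⟩ := h
  have h4 : eval r ((g.map (Int.castRingHom ℚ)).map (algebraMap ℚ ℂ)) = 0 := by
    rw [aeval_def] at hr
    rw [Polynomial.map_map, eval_map, ← hr]
    congr 1
  rw [Polynomial.map_mul, eval_mul, h4, zero_mul]

/-! ### Germs -/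

lemma alg_germ (S : Sca) {d : ℕ} {g : ℕ → ℤ[X]} (hdeg : ∀ n, (g n).natDegree = d)
    (hlc : ∀ n, (g n).leadingCoeff ≠ 0)
    (hc : ∀ l, qc (fun n => (((g n).coeff l : ℤ) : ℚ)) ∈ k0 S)
    (y : ℕ → ℂ) (hy : Ev fun n => aeval (y n) (g n) = 0) :
    cc y ∈ algebraicClosure (k0 S) Oc := by
  rw [mem_algebraicClosure_iff']
  apply IsAlgebraic.isIntegral
  refine ⟨∑ l ∈ Finset.range (d + 1), C (⟨_, hc l⟩ : k0 S) * X ^ l, ?_, ?_⟩
  · intro h
    have h1 := congrArg (fun P => coeff P d) h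
    simp only [finsetSum_coeff, coeff_C_mul_X_pow, coeff_zero] at h1
    rw [Finset.sum_eq_single d] at h1
    · rw [if_pos rfl] at h1
      have h2 := congrArg (fun z : k0 S => (z : Oc)) h1
      change qc (fun n => (((g n).coeff d : ℤ) : ℚ)) = 0 at h2
      rw [qc_apply, cc_eq_zero] at h2
      obtain ⟨n, hn⟩ := h2.exists
      have h3 : (g n).coeff d = 0 := by exact_mod_cast hn
      rw [← hdeg n] at h3
      exact hlc n h3
    · intro l _ hl
      rw [if_neg (Ne.symm hl)]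
    · intro hl
      exact absurd (Finset.mem_range.2 (Nat.lt_succ_self d)) hl
  · rw [map_sum]
    simp only [map_mul, aeval_C, map_pow, aeval_X]
    change ∑ l ∈ Finset.range (d + 1), qc (fun n => (((g n).coeff l : ℤ) : ℚ)) *
      cc y ^ l = 0
    simp only [qc_apply, ← map_pow, ← map_mul, ← map_sum]
    rw [cc_eq_zero]
    refine hy.mono fun n hn => ?_
    rw [aeval_def, eval₂_eq_sum_range, hdeg n] at hn
    rw [← hn, Finset.sum_apply]
    refine Finset.sum_congr rfl fun l _ => ?_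
    simp

lemma R0_sum (S : Sca) {d : ℕ} {g : ℕ → ℤ[X]} (hsep : ∀ n, ((g n).map (Int.castRingHom ℚ)).Separable)
    (hlc : ∀ n, (g n).leadingCoeff ≠ 0) (hlcT : ∀ n, |(g n).leadingCoeff| ≤ (S.T n : ℤ))
    (θ : ∀ _ : ℕ, Fin d → ℂ)
    (hθs : ∀ n, ∀ F : ℂ → ℂ, ∑ i, F (θ n i) =
        ∑ r ∈ (((g n).map (Int.castRingHom ℚ)).map (algebraMap ℚ ℂ)).roots.toFinset, F r)
    (B : ℕ → ℚ[X]) (hB : ∀ n, ∀ r : ℂ, aeval r (g n) = 0 →
      IsIntegral ℤ (((g n).leadingCoeff : ℂ) * ((B n).map (algebraMap ℚ ℂ)).eval r)) (j : ℕ) :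
    ∑ i, cc (fun n => θ n i) ^ j *
      cc (fun n => ((B n).map (algebraMap ℚ ℂ)).eval (θ n i)) ∈ R0 S := by
  choose z hz using fun n => trI (g n) (hsep n) (B n) (hB n) j
  refine ⟨z, fun n => (g n).leadingCoeff ^ (j + 1), fun n => pow_ne_zero _ (hlc n),
    ⟨j + 1, fun n => ?_⟩, ?_⟩
  · rw [abs_pow]
    exact pow_le_pow_left₀ (abs_nonneg _) (hlcT n) _
  · rw [qc_apply]
    simp only [← map_pow, ← map_mul, ← map_sum]
    congr 1
    ext n
    rw [Finset.sum_apply]
    simp only [Pi.pow_apply, Pi.mul_apply]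
    have h1 := hθs n (fun r => r ^ j * ((B n).map (algebraMap ℚ ℂ)).eval r)
    rw [h1]
    have h2 := hz n
    have h3 : ((g n).leadingCoeff : ℂ) ^ (j + 1) ≠ 0 := by
      apply pow_ne_zero
      exact_mod_cast hlc n
    push_cast
    rw [← h2]
    field_simp

lemma one_eval (r : ℂ) : ((1 : ℚ[X]).map (algebraMap ℚ ℂ)).eval r = 1 := by
  rw [Polynomial.map_one, eval_one]

lemma int_lin {g : ℤ[X]} {r : ℂ} (hr : aeval r g = 0) (y : ℤ) :
    IsIntegral ℤ ((g.leadingCoeff : ℂ) * (y - r)) := by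
  have h5 : IsIntegral ℤ ((g.leadingCoeff : ℂ) * r) := by
    have := isIntegral_leadingCoeff_smul g r hr
    rwa [zsmul_eq_mul] at this
  have h7 : (g.leadingCoeff : ℂ) * (y - r) = (((g.leadingCoeff * y : ℤ) : ℂ)) -
      (g.leadingCoeff : ℂ) * r := by
    push_cast; ring
  rw [h7]
  exact (isIntegral_algebraMap (R := ℤ) (x := (g.leadingCoeff * y : ℤ))).sub h5

/-- the main lemma -/
theorem done (hcore : Pool.Agent.Y910.F.StCORE) : Pool.Agent.Y910.F.StGAP := by
  intro d hd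
  by_contra hcon
  push Not at hcon
  choose H f hH1 hdeg hsep hcoef x hxinj hxbig hxB hgap using hcon
  choose B hB using hxB
  let S : Sca := ⟨fun n => 2 * H n, fun n => by have := hH1 n; omega⟩
  have hHT : ∀ n, (H n : ℤ) ≤ (S.T n : ℤ) := by
    intro n
    change (H n : ℤ) ≤ ((2 * H n : ℕ) : ℤ)
    push_cast
    have := hH1 n
    omega
  have hkint : ∀ f : ℕ → ℤ, (∀ n, |f n| ≤ H n) → qc (fun n => (f n : ℚ)) ∈ k0 S := by
    intro f hf
    refine ⟨_, ⟨1, fun n => ?_⟩, rfl⟩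
    apply Ht.int (S.one_le n 1)
    rw [pow_one]
    exact (hf n).trans (hHT n)
  choose θ hθi hθ0 hθs using fun n => exists_enum (f n) (hsep n) d (hdeg n)
  have hlc : ∀ n, (f n).leadingCoeff ≠ 0 := by
    intro n h
    rw [leadingCoeff_eq_zero] at h
    have := hdeg n
    rw [h, natDegree_zero] at this
    omega
  have hlcT : ∀ n, |(f n).leadingCoeff| ≤ (S.T n : ℤ) := fun n =>
    (hcoef n _).trans (hHT n)
  have hc : ∀ l, qc (fun n => (((f n).coeff l : ℤ) : ℚ)) ∈ k0 S := fun l =>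
    hkint _ fun n => hcoef n l
  have hkV : ∀ z ∈ k0 S, z ∈ VV S := fun z hz => k0_le S hz
  obtain ⟨Θ, hΘ⟩ : ∃ Θ : Fin d → Oc, ∀ i, Θ i = cc (fun n => θ n i) := ⟨_, fun _ => rfl⟩
  obtain ⟨Xa, hXa⟩ : ∃ Xa : Fin (2 ^ d + 1) → Oc, ∀ a, Xa a = cc (fun n => (x n a : ℂ)) :=
    ⟨_, fun _ => rfl⟩
  obtain ⟨BE, hBE⟩ : ∃ BE : Fin (2 ^ d + 1) → Fin d → Oc, ∀ a i,
      BE a i = cc (fun n => ((B n a).map (algebraMap ℚ ℂ)).eval (θ n i)) := ⟨_, fun _ _ => rfl⟩
  have hsq : ∀ n a, ∃ s : ℂ, s ^ 2 = (x n a : ℂ) := fun n a =>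
    IsAlgClosed.exists_pow_nat_eq _ (by norm_num)
  choose s hs using hsq
  obtain ⟨Sa, hSa⟩ : ∃ Sa : Fin (2 ^ d + 1) → Oc, ∀ a, Sa a = cc (fun n => s n a) :=
    ⟨_, fun _ => rfl⟩
  have hSX : ∀ a, Sa a ^ 2 = Xa a := by
    intro a
    rw [hSa, hXa, ← map_pow]
    congr 1
    ext n
    exact hs n a
  have hΘalg : ∀ i, Θ i ∈ algebraicClosure (k0 S) Oc := by
    intro i
    rw [hΘ]
    exact alg_germ S hdeg hlc hc _ (Ev.of_forall fun n => hθ0 n i)
  have hΘV : ∀ i, Θ i ∈ VV S := fun i => alg_mem (VV S) (k0 S) hkV (hΘalg i)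
  have hXV : ∀ a, Xa a ∉ VV S := by
    rintro a ⟨h, hf, m, hm⟩
    rw [hXa, cc_eq] at hf
    obtain ⟨n, hn1, hn2⟩ := (hf.and (ev_ge m)).exists
    have h1 := hm n
    rw [hn1, Complex.norm_intCast] at h1
    have h2 : (|x n a| : ℤ) ≤ (S.T n : ℤ) ^ m := by exact_mod_cast h1
    have h3 : (S.T n : ℤ) ^ m ≤ (S.T n : ℤ) ^ n := by
      apply pow_le_pow_right₀ _ hn2
      have := S.hT n
      omega
    have h4 := hxbig n a
    change |x n a| ≤ ((2 * H n : ℕ) : ℤ) ^ m at h2
    change ((2 * H n : ℕ) : ℤ) ^ m ≤ ((2 * H n : ℕ) : ℤ) ^ n at h3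
    push_cast at h2 h3
    exact absurd (h2.trans h3) (not_le.2 h4)
  -- the squares, pointwise
  have hsqn : ∀ n a (r : ℂ), aeval r (f n) = 0 →
      ((B n a).map (algebraMap ℚ ℂ)).eval r ^ 2 = ((x n 0 : ℂ) - r) * ((x n a : ℂ) - r) := by
    intro n a r hr
    have h3 := eval_of_dvd hr (hB n a)
    simp only [Polynomial.map_sub, Polynomial.map_pow, Polynomial.map_mul, Polynomial.map_C,
      Polynomial.map_X, eval_sub, eval_pow, eval_mul, eval_C, eval_X] at h3
    rw [sub_eq_zero] at h3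
    rw [h3]
    simp
  have hBsq : ∀ a i, BE a i ^ 2 = (Xa 0 - Θ i) * (Xa a - Θ i) := by
    intro a i
    rw [hBE, hXa, hXa, hΘ, ← map_pow, ← map_sub, ← map_sub, ← map_mul]
    congr 1
    ext n
    simp only [Pi.pow_apply, Pi.mul_apply, Pi.sub_apply]
    exact hsqn n a _ (hθ0 n i)
  -- the signs
  choose e he using fun a i => sign (VV S) (hXV 0) (hXV a) (hSX 0) (hSX a) (hΘV i) (hBsq a i)
  obtain ⟨a0, b0, hab0, heq0⟩ := Fintype.exists_ne_map_eq_of_card_lt e (by
    rw [Fintype.card_fun, Fintype.card_bool, Fintype.card_fin, Fintype.card_fin]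
    omega)
  -- the power sums
  have hpow : ∀ j : ℕ, ∑ i, Θ i ^ j ∈ k0 S := by
    intro j
    apply R0_V
    · have h1 := R0_sum S hsep hlc hlcT θ hθs (fun _ => 1) (fun n r _ => by
        rw [one_eval, mul_one]
        exact isIntegral_algebraMap (R := ℤ) (x := (f n).leadingCoeff)) j
      have h2 : ∀ i, cc (fun n => θ n i) ^ j *
          cc (fun n => ((1 : ℚ[X]).map (algebraMap ℚ ℂ)).eval (θ n i)) = Θ i ^ j := by
        intro i
        rw [hΘ]
        have h3 : (fun n => ((1 : ℚ[X]).map (algebraMap ℚ ℂ)).eval (θ n i)) = 1 := by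
          funext n
          exact one_eval _
        rw [h3, map_one, mul_one]
      simp only [h2] at h1
      exact h1
    · exact sum_mem fun i _ => pow_mem (hΘV i) j
  -- the evaluation at the first point is almost always nonzero
  have hne : Ev fun n => ¬ aeval (x n 0 : ℂ) (f n) = 0 := by
    rw [ev_not]
    intro h
    apply hXV 0
    rw [hXa]
    exact alg_mem (VV S) (k0 S) hkV (alg_germ S hdeg hlc hc _ h)
  have hI : ∀ n, ∃ I : ℚ[X], (¬ aeval (x n 0 : ℂ) (f n) = 0 → (f n).map (Int.castRingHom ℚ) ∣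
      I * (C (x n 0 : ℚ) - X) - 1) ∧ (aeval (x n 0 : ℂ) (f n) = 0 → I = 0) := by
    intro n
    by_cases h : aeval (x n 0 : ℂ) (f n) = 0
    · exact ⟨0, fun h' => absurd h h', fun _ => rfl⟩
    · have h1 : IsCoprime (X - C (x n 0 : ℚ)) ((f n).map (Int.castRingHom ℚ)) := by
        refine (irreducible_X_sub_C _).coprime_iff_not_dvd.2 fun h2 => h ?_
        rw [dvd_iff_isRoot, IsRoot.def, eval_map] at h2
        have h3 := congrArg (algebraMap ℚ ℂ) h2
        rw [hom_eval₂, map_zero] at h3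
        rw [aeval_def, ← h3]
        congr 1
      obtain ⟨u, w, huw⟩ := h1
      refine ⟨-u, fun _ => ⟨-w, ?_⟩, fun h' => absurd h' h⟩
      linear_combination huw
  choose I hI1 hI2 using hI
  -- the main step
  have main : ∀ a b, a ≠ b → e a = e b → (Ev fun n => |x n a| ≤ |x n b|) → False := by
    intro a b hab heq hle
    have hcb : ∀ i, _ := fun i => comb (VV S) (hXV 0) (hXV a) (hXV b) (hSX 0) (hSX a) (hSX b)
      (hΘV i) (hBsq a i) (hBsq b i) (e a i) (he a i) (by rw [heq]; exact he b i)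
    have hβ : ∀ i, BE a i * BE b i / (Xa 0 - Θ i) =
        cc (fun n => ((B n a * B n b * I n).map (algebraMap ℚ ℂ)).eval (θ n i)) := by
      intro i
      have h0 : Xa 0 - Θ i ≠ 0 := by
        intro h
        apply hXV 0
        rw [sub_eq_zero.1 h]
        exact hΘV i
      rw [div_eq_iff h0, hBE, hBE, hXa, hΘ, ← map_mul, ← map_sub, ← map_mul, cc_eq]
      refine hne.mono fun n hn => ?_
      have h3 := eval_of_dvd (hθ0 n i) (hI1 n hn)
      simp only [Polynomial.map_sub, Polynomial.map_mul, Polynomial.map_C,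
        Polynomial.map_X, Polynomial.map_one, eval_sub, eval_mul, eval_C, eval_X, eval_one] at h3
      have h4 : eval (θ n i) ((I n).map (algebraMap ℚ ℂ)) * ((x n 0 : ℂ) - θ n i) = 1 := by
        have h5 : ((algebraMap ℚ ℂ) (x n 0 : ℚ)) = (x n 0 : ℂ) := by simp
        rw [h5] at h3
        exact sub_eq_zero.1 h3
      simp only [Pi.mul_apply, Pi.sub_apply, Polynomial.map_mul, eval_mul]
      rw [mul_assoc _ (eval (θ n i) ((I n).map (algebraMap ℚ ℂ))), h4, mul_one]
    have hXab : Xa a = Xa b := by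
      refine hcore Oc (VV S) (k0 S) (R0 S) hkV (fun z hz => k0_le_R0 S hz)
        (fun z hz hz' => R0_V S hz hz') (Fin d) (Xa a) (Xa b) (Sa a) (Sa b) Θ
        (fun i => BE a i * BE b i / (Xa 0 - Θ i)) (by rw [Fintype.card_fin]; exact hd)
        (hXV a) (hSX a) (hSX b) ?_ ?_ ?_ hΘalg hpow (fun i => (hcb i).1) (fun i => (hcb i).2) ?_
      · -- the quotient
        refine ⟨fun n => if |x n a| ≤ |x n b| then (x n a : ℂ) / x n b else 0, ?_, 0, fun n => ?_⟩
        · rw [hXa, hXa, div_eq_mul_inv, cc_inv, ← map_mul, cc_eq]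
          refine hle.mono fun n hn => ?_
          simp only [Pi.mul_apply]
          rw [if_pos hn, div_eq_mul_inv]
        · dsimp only
          rw [pow_zero]
          split_ifs with h1
          · rw [norm_div, Complex.norm_intCast, Complex.norm_intCast]
            have h2 : |(x n a : ℝ)| ≤ |(x n b : ℝ)| := by exact_mod_cast h1
            exact div_le_one_of_le₀ h2 (abs_nonneg _)
          · simp
      · have h1 : Xa b / Xa a ^ 3 = (Xa a)⁻¹ * (Xa b / Xa a ^ 2) := by
          have h0 : Xa a ≠ 0 := fun h => hXV a (h ▸ (VV S).zero_mem)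
          field_simp
        rw [h1]
        refine m_mul (VV S) (inv_small (VV S) (hXV a)) ?_
        refine ⟨fun n => (x n b : ℂ) / x n a ^ 2, ?_, 0, fun n => ?_⟩
        · rw [hXa, hXa, div_eq_mul_inv, ← map_pow, cc_inv, ← map_mul]
          congr 1
        · rw [pow_zero, norm_div, norm_pow, Complex.norm_intCast, Complex.norm_intCast]
          have h2 := (hgap n a b hab).le
          have h3 : |(x n b : ℝ)| ≤ |(x n a : ℝ)| ^ 2 := by exact_mod_cast h2
          exact div_le_one_of_le₀ h3 (by positivity)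
      · intro i j hij
        rw [hΘ, hΘ, cc_eq] at hij
        obtain ⟨n, hn⟩ := hij.exists
        exact hθi n hn
      · intro j
        have h1 := R0_sum S hsep hlc hlcT θ hθs (fun n => B n a * B n b * I n) ?_ j
        · simp only [hβ]
          simp only [hΘ]
          exact h1
        · intro n r hr
          by_cases h : aeval (x n 0 : ℂ) (f n) = 0
          · rw [hI2 n h, mul_zero, Polynomial.map_zero, eval_zero, mul_zero]
            exact isIntegral_zero
          · have h3 := eval_of_dvd hr (hI1 n h)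
            simp only [Polynomial.map_sub, Polynomial.map_mul, Polynomial.map_C,
              Polynomial.map_X, Polynomial.map_one, eval_sub, eval_mul, eval_C, eval_X,
              eval_one] at h3
            have h5 : ((algebraMap ℚ ℂ) (x n 0 : ℚ)) = (x n 0 : ℂ) := by simp
            rw [h5] at h3
            have h4 : eval r ((I n).map (algebraMap ℚ ℂ)) * ((x n 0 : ℂ) - r) = 1 :=
              sub_eq_zero.1 h3
            apply IsIntegral.of_pow (n := 2) (by norm_num)
            simp only [Polynomial.map_mul, eval_mul]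
            have h6 : (((f n).leadingCoeff : ℂ) * (eval r ((B n a).map (algebraMap ℚ ℂ)) *
                eval r ((B n b).map (algebraMap ℚ ℂ)) *
                eval r ((I n).map (algebraMap ℚ ℂ)))) ^ 2 =
                (((f n).leadingCoeff : ℂ) * ((x n a : ℂ) - r)) *
                (((f n).leadingCoeff : ℂ) * ((x n b : ℂ) - r)) := by
              have h7 := hsqn n a r hr
              have h8 := hsqn n b r hr
              calc _ = ((f n).leadingCoeff : ℂ) ^ 2 *
                    (eval r ((B n a).map (algebraMap ℚ ℂ)) ^ 2) *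
                    (eval r ((B n b).map (algebraMap ℚ ℂ)) ^ 2) *
                    (eval r ((I n).map (algebraMap ℚ ℂ))) ^ 2 := by ring
                _ = ((f n).leadingCoeff : ℂ) ^ 2 * ((x n a : ℂ) - r) * ((x n b : ℂ) - r) *
                    (eval r ((I n).map (algebraMap ℚ ℂ)) * ((x n 0 : ℂ) - r)) ^ 2 := by
                  rw [h7, h8]; ring
                _ = _ := by rw [h4]; ring
            rw [h6]
            exact (int_lin hr _).mul (int_lin hr _)
    rw [hXa, hXa, cc_eq] at hXab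
    obtain ⟨n, hn⟩ := hXab.exists
    exact hab (hxinj n (by exact_mod_cast hn))
  have hor : Ev fun n => |x n a0| ≤ |x n b0| ∨ |x n b0| ≤ |x n a0| :=
    Ev.of_forall fun n => le_total _ _
  rcases ev_or.1 hor with h | h
  · exact main a0 b0 hab0 heq0 h
  · exact main b0 a0 hab0.symm heq0.symm h

end Pool.Agent.Y550.FC.GAP
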